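import Pool.Agent.H97.HV.Targets4

/-!
# MAI: the extension of the embedding (board hov)
-/

open Ordinal Cardinal Order Set
open scoped ZFSet

universe u

namespace HD.HW.H5

open HD.PRK HD.HV Pool.Agent.H54.WM

theorem pf_MAI (h1 : HD.HW.T_PI.{u}) (h2 : HD.HW.T_IDC.{u}) (h3 : HD.HW.T_ELE.{u})
    (h4 : HD.HW.T_POW.{u}) : HD.HW.T_MAI.{u} := by
  classical
  intro γ ξ κ j h hC
  obtain ⟨π, hπ⟩ := h1 γ ξ κ j h hC
  obtain ⟨hI1, hI2⟩ := h2 γ ξ κ j h π hπ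
  have hjj : ∀ x (hx : NV (min γ ξ) x),
      (if hx : NV (min γ ξ) x then π (ct h.gξ h.gκ h.lκ x hx) else ∅) =
      π (ct h.gξ h.gκ h.lκ x hx) := fun x hx => dif_pos hx
  refine ⟨fun x => ∃ s, π s = x,
    fun x => if hx : NV (min γ ξ) x then π (ct h.gξ h.gκ h.lκ x hx) else ∅, ?_⟩
  constructor
  · rintro _ ⟨s, rfl⟩ y hy
    exact hπ.tra s y hy
  · intro x hx
    exact ⟨_, (hjj x hx).symm⟩
  · intro φ v hv
    have e1 : ((fun x => if hx : NV (min γ ξ) x then π (ct h.gξ h.gκ h.lκ x hx) else ∅) ∘ v) =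
        fun n => π (ct h.gξ h.gκ h.lκ (v n) (hv n)) := by
      funext n
      exact hjj (v n) (hv n)
    rw [e1]
    exact h3 γ ξ κ j h π hπ φ v hv
  · intro x hx
    exact (hjj x hx.1).trans (hI2 x hx)
  · intro x hx
    exact ⟨idt h.gξ x hx, hI1 x hx⟩
  · rintro _ ⟨t, rfl⟩ ht
    exact h4 γ ξ κ j h π hπ t ht

end HD.HW.H5
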